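import Pool.Agent.Y645.UL.Stm2

/-!
# Closed points with prescribed values on a transcendence basis
-/

set_option autoImplicit false

namespace Pool.Agent.Y363.UL

open MvPolynomial Pool.Agent.Y645.UL

/-- An element of a field extension which is a root of a monic polynomial over an algebraically
closed field comes from this field. -/
theorem root_mem {k κ : Type} [Field k] [IsAlgClosed k] [Field κ] (i : k →+* κ)
    (q : Polynomial k) (hq : q.Monic) (z : κ) (hz : q.eval₂ i z = 0) : ∃ c, i c = z := by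
  let _ : Algebra k κ := i.toAlgebra
  have h : IsIntegral k z := ⟨q, hq, hz⟩
  have h1 := minpoly.mem_range_of_degree_eq_one k z
    (IsAlgClosed.degree_eq_one_of_irreducible k (minpoly.irreducible h))
  obtain ⟨c, hc⟩ := RingHom.mem_range.1 h1
  exact ⟨c, hc⟩

section spec

variable {k F : Type} [Field k] [IsAlgClosed k] [Field F] [Algebra k F]

/-- Specializations: a valuation ring over a subalgebra and a homomorphism. -/
theorem exists_place (R₀ : Subalgebra k F) (φ : R₀ →ₐ[k] k) :
    ∃ (O : ValuationSubring F) (ι : R₀ →+* O), (∀ r, ((ι r : O) : F) = r) ∧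
      ∀ r, IsLocalRing.residue O (ι r) = IsLocalRing.residue O (ι (algebraMap k R₀ (φ r))) := by
  let inc : R₀.toSubring →+* R₀ :=
    { toFun := fun x => ⟨x.1, x.2⟩
      map_one' := rfl
      map_mul' := fun _ _ => rfl
      map_zero' := rfl
      map_add' := fun _ _ => rfl }
  let φ' : R₀.toSubring →+* k := (φ : R₀ →+* k).comp inc
  obtain ⟨O, hO, hI⟩ := Ideal.image_subset_nonunits_valuationSubring (RingHom.ker φ')
    (RingHom.ker_ne_top φ')
  let ι : R₀ →+* O :=
    { toFun := fun x => ⟨x.1, hO x.2⟩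
      map_one' := rfl
      map_mul' := fun _ _ => rfl
      map_zero' := rfl
      map_add' := fun _ _ => rfl }
  refine ⟨O, ι, fun r => rfl, fun r => ?_⟩
  rw [← sub_eq_zero, ← map_sub, ← map_sub, IsLocalRing.residue_eq_zero_iff,
    ← ValuationSubring.coe_mem_nonunits_iff]
  apply hI
  refine ⟨⟨(r - algebraMap k R₀ (φ r) : R₀).1, (r - algebraMap k R₀ (φ r) : R₀).2⟩, ?_, rfl⟩
  change φ (r - algebraMap k R₀ (φ r)) = 0
  rw [map_sub, AlgHom.commutes]
  exact sub_self _

/-- An element with an integral multiple has a specialization. -/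
theorem spec_elem (R₀ : Subalgebra k F) (φ : R₀ →ₐ[k] k) (O : ValuationSubring F)
    (ι : R₀ →+* O) (hι : ∀ r, ((ι r : O) : F) = r)
    (hres : ∀ r, IsLocalRing.residue O (ι r) =
      IsLocalRing.residue O (ι (algebraMap k R₀ (φ r)))) (z : F) (y : R₀) (hy : φ y ≠ 0)
    (hz : IsIntegral R₀ (y • z)) :
    ∃ (z' : O) (c : k), (z' : F) = z ∧
      IsLocalRing.residue O z' = IsLocalRing.residue O (ι (algebraMap k R₀ c)) := by
  let π := IsLocalRing.residue O
  let i : k →+* IsLocalRing.ResidueField O := (π.comp ι).comp (algebraMap k R₀)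
  obtain ⟨p, hp, hp0⟩ := hz
  have hcomp : (algebraMap O F).comp ι = algebraMap R₀ F := by
    ext r
    exact hι r
  have hint : IsIntegral O (y • z) := by
    refine ⟨p.map ι, hp.map ι, ?_⟩
    rw [Polynomial.eval₂_map, hcomp]
    exact hp0
  obtain ⟨w, hw⟩ := IsIntegrallyClosed.isIntegral_iff.1 hint
  have hinj : Function.Injective (algebraMap O F) := Subtype.val_injective
  have hw0 : p.eval₂ ι w = 0 := by
    apply hinj
    rw [Polynomial.hom_eval₂, hcomp, hw, map_zero]
    exact hp0
  have hw1 : (p.map (φ : R₀ →+* k)).eval₂ i (π w) = 0 := by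
    have h1 := congrArg π hw0
    rw [Polynomial.hom_eval₂, map_zero] at h1
    rw [Polynomial.eval₂_map]
    have h2 : i.comp (φ : R₀ →+* k) = π.comp ι := by
      ext r
      exact (hres r).symm
    rw [h2]
    exact h1
  obtain ⟨c, hc⟩ := root_mem i _ (hp.map _) _ hw1
  have hyi : i (φ y) = π (ι y) := (hres y).symm
  have hy0 : π (ι y) ≠ 0 := by
    rw [← hyi]
    exact (map_ne_zero i).2 hy
  obtain ⟨u, hu⟩ := (IsLocalRing.residue_ne_zero_iff_isUnit (ι y)).1 hy0
  have hinv : ((u⁻¹ : Oˣ) : O) * ι y = 1 := by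
    rw [← hu]
    exact u.inv_mul
  refine ⟨((u⁻¹ : Oˣ) : O) * w, (φ y)⁻¹ * c, ?_, ?_⟩
  · change algebraMap O F (((u⁻¹ : Oˣ) : O) * w) = z
    rw [map_mul, hw, Algebra.smul_def, ← mul_assoc]
    have h3 : algebraMap O F ((u⁻¹ : Oˣ) : O) * algebraMap R₀ F y = 1 := by
      have h4 := congrArg (algebraMap O F) hinv
      rw [map_mul, map_one] at h4
      have h5 : algebraMap O F (ι y) = algebraMap R₀ F y := hι y
      rw [h5] at h4
      exact h4
    rw [h3, one_mul]
  · change π (((u⁻¹ : Oˣ) : O) * w) = i ((φ y)⁻¹ * c)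
    rw [map_mul, map_mul, hc]
    congr 1
    have h5 : π ((u⁻¹ : Oˣ) : O) * i (φ y) = 1 := by
      rw [hyi, ← map_mul, hinv, map_one]
    have h6 : i (φ y) ≠ 0 := (map_ne_zero i).2 hy
    rw [map_inv₀]
    exact eq_inv_of_mul_eq_one_left h5

end spec

theorem isAlg_aeval {k F ι : Type} [Field k] [Field F] [Algebra k F] (R₀ : Subalgebra k F)
    (a : ι → F) (ha : ∀ j, IsAlgebraic R₀ (a j)) (f : MvPolynomial ι k) :
    IsAlgebraic R₀ (aeval a f) := by
  induction f using MvPolynomial.induction_on with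
  | C c =>
    rw [aeval_C]
    have : algebraMap k F c = algebraMap R₀ F (algebraMap k R₀ c) := rfl
    rw [this]
    exact isAlgebraic_algebraMap _
  | add p q hp hq =>
    rw [map_add]
    exact hp.add hq
  | mul_X p j hp =>
    rw [map_mul, aeval_X]
    exact hp.mul (ha j)

theorem t_EXT : Pool.Agent.Y645.UL.S_EXT := by
  classical
  intro k F ι _ _ _ _ _ a f B hf hind halg
  have hrange : (fun j => (a j : F)) '' (B : Set ι) = Set.range (fun b : B => (a b : F)) := by
    ext z
    constructor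
    · rintro ⟨b, hb, rfl⟩
      exact ⟨⟨b, hb⟩, rfl⟩
    · rintro ⟨b, rfl⟩
      exact ⟨b, b.2, rfl⟩
  rw [hrange] at halg
  set R₀ := Algebra.adjoin k (Set.range (fun b : B => (a b : F))) with hR₀
  let e : MvPolynomial B k ≃ₐ[k] R₀ := hind.aevalEquiv
  have heX : ∀ b : B, ((e (X b) : R₀) : F) = a b := by
    intro b
    change ((hind.aevalEquiv (X b) : R₀) : F) = a b
    rw [AlgebraicIndependent.aevalEquiv_apply_coe, aeval_X]
  -- the inverse
  set T : F := aeval (fun j => (a j : F)) f * ∏ j, (a j : F) with hT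
  have hT0 : T ≠ 0 := mul_ne_zero hf (Finset.prod_ne_zero_iff.2 fun j _ => (a j).ne_zero)
  have hTalg : IsAlgebraic R₀ T⁻¹ := by
    apply IsAlgebraic.inv
    have h1 : T = aeval (fun j => (a j : F)) (f * ∏ j, X j) := by
      rw [hT, map_mul, map_prod]
      simp only [aeval_X]
    rw [h1]
    exact isAlg_aeval R₀ _ halg _
  choose y hy0 hy using fun j => (halg j).exists_integral_multiple
  obtain ⟨yt, hyt0, hyt⟩ := hTalg.exists_integral_multiple
  refine ⟨(∏ j, e.symm (y j)) * e.symm yt, ?_, fun ζ hζ => ?_⟩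
  · refine mul_ne_zero (Finset.prod_ne_zero_iff.2 fun j _ => ?_) ?_
    · exact (map_ne_zero_iff e.symm e.symm.injective).2 (hy0 j)
    · exact (map_ne_zero_iff e.symm e.symm.injective).2 hyt0
  rw [map_mul, map_prod] at hζ
  have hζt : eval ζ (e.symm yt) ≠ 0 := right_ne_zero_of_mul hζ
  have hζj : ∀ j, eval ζ (e.symm (y j)) ≠ 0 := fun j =>
    Finset.prod_ne_zero_iff.1 (left_ne_zero_of_mul hζ) j (Finset.mem_univ j)
  let φ : R₀ →ₐ[k] k := (aeval ζ : MvPolynomial B k →ₐ[k] k).comp e.symm.toAlgHom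
  have hφ : ∀ r, φ r = eval ζ (e.symm r) := fun r => by
    rfl
  obtain ⟨O, io, hio, hres⟩ := exists_place R₀ φ
  choose a' x ha' hx using fun j => spec_elem R₀ φ O io hio hres (a j) (y j)
    (by rw [hφ]; exact hζj j) (hy j)
  obtain ⟨t', τ, ht', hτ⟩ := spec_elem R₀ φ O io hio hres T⁻¹ yt (by rw [hφ]; exact hζt) hyt
  let j₀ : k →+* O := io.comp (algebraMap k R₀)
  let π := IsLocalRing.residue O
  let i : k →+* IsLocalRing.ResidueField O := π.comp j₀
  have hinj : Function.Injective (algebraMap O F) := Subtype.val_injective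
  have hj₀ : (algebraMap O F).comp j₀ = algebraMap k F := by
    ext c
    exact hio _
  have hev : ∀ g : MvPolynomial ι k,
      algebraMap O F (eval₂ j₀ a' g) = aeval (fun j => (a j : F)) g := by
    intro g
    rw [MvPolynomial.hom_eval₂, hj₀, aeval_def]
    congr 1
    funext j
    exact ha' j
  have hevπ : ∀ g : MvPolynomial ι k, π (eval₂ j₀ a' g) = i (eval x g) := by
    intro g
    rw [MvPolynomial.hom_eval₂]
    have h1 : (fun j => π (a' j)) = fun j => i (x j) := by
      funext j
      exact hx j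
    rw [h1]
    have h2 := MvPolynomial.hom_eval₂ g (RingHom.id k) i x
    rw [RingHom.comp_id] at h2
    exact h2.symm
  -- the product
  have hprod : t' * (eval₂ j₀ a' f * ∏ j, a' j) = 1 := by
    apply hinj
    rw [map_mul, map_mul, map_prod, hev, map_one]
    have h1 : algebraMap O F t' = T⁻¹ := ht'
    have h2 : ∏ j, algebraMap O F (a' j) = ∏ j, (a j : F) :=
      Finset.prod_congr rfl fun j _ => ha' j
    rw [h1, h2]
    exact inv_mul_cancel₀ hT0
  have hprodk : τ * (eval x f * ∏ j, x j) = 1 := by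
    apply i.injective
    have h1 := congrArg π hprod
    rw [map_mul, map_mul, map_prod, hevπ, map_one] at h1
    rw [map_mul, map_mul, map_prod, map_one, ← h1]
    have h2 : ∏ j, π (a' j) = ∏ j, i (x j) := Finset.prod_congr rfl fun j _ => hx j
    have h3 : π t' = i τ := hτ
    rw [h2, h3]
  have hne := right_ne_zero_of_mul (hprodk.symm ▸ one_ne_zero : τ * (eval x f * ∏ j, x j) ≠ 0)
  have hxj : ∀ j, x j ≠ 0 := fun j =>
    Finset.prod_ne_zero_iff.1 (right_ne_zero_of_mul hne) j (Finset.mem_univ j)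
  refine ⟨fun j => Units.mk0 (x j) (hxj j), ?_, ?_, ?_⟩
  · intro g hg
    have h1 : eval₂ j₀ a' g = 0 := by
      apply hinj
      rw [hev, hg, map_zero]
    have h2 : i (eval x g) = i 0 := by rw [← hevπ, h1, map_zero, map_zero]
    have h3 := i.injective h2
    exact h3
  · exact left_ne_zero_of_mul hne
  · intro b
    apply i.injective
    change i (x b) = i (ζ b)
    have h1 : a' b = io (e (X b)) := by
      apply hinj
      refine (ha' b).trans ?_
      rw [← heX b]
      exact (hio _).symm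
    have h2 : i (x b) = π (a' b) := (hx b).symm
    rw [h2, h1]
    refine (hres _).trans ?_
    have h3 : φ (e (X b)) = ζ b := by
      rw [hφ, AlgEquiv.symm_apply_apply, eval_X]
    rw [h3]
    rfl

end Pool.Agent.Y363.UL
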